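import Mathlib

set_option autoImplicit false

namespace Pool.Agent.Lib.MP_d2b9e5_an

open Classical

/-- Triangular (Moebius type) inversion along finite lower sets. -/
theorem exists_mobius {D E : Type} [AddCommGroup E] (low : D → Finset D) (r : D → ℕ)
    (hr : ∀ d, ∀ c ∈ low d, r c < r d) (δ : D → E) :
    ∃ μ : D → E, ∀ d, μ d = δ d - ∑ c ∈ low d, μ c := by
  have wf : WellFounded (fun c d : D => r c < r d) := (measure r).wf
  refine ⟨wf.fix (fun d rec => δ d - ∑ c ∈ (low d).attach, rec c.1 (hr d c.1 c.2)), fun d => ?_⟩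
  rw [WellFounded.fix_eq]
  congr 1
  exact Finset.sum_attach (low d) (fun c => wf.fix
    (fun d rec => δ d - ∑ c ∈ (low d).attach, rec c.1 (hr d c.1 c.2)) c)

/-- The indicator of the clopen set of the members of `K` that contain the finite set `F`. -/
noncomputable def ind {W : Type} (K : Set (W → Bool)) (F : Finset W) : C(K, ℝ) :=
  ∏ ξ ∈ F, (⟨fun A : K => if A.1 ξ = true then (1 : ℝ) else 0,
    (continuous_of_discreteTopology (f := fun b : Bool => if b = true then (1 : ℝ) else 0)).comp
      ((continuous_apply ξ).comp continuous_subtype_val)⟩ : C(K, ℝ))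

theorem ind_apply {W : Type} (K : Set (W → Bool)) (F : Finset W) (A : K) :
    ind K F A = if ∀ ξ ∈ F, A.1 ξ = true then 1 else 0 := by
  unfold ind
  rw [ContinuousMap.prod_apply]
  simp only [ContinuousMap.coe_mk]
  rw [Finset.prod_boole]

theorem ind_mul {W : Type} (K : Set (W → Bool)) (F G : Finset W) :
    ind K F * ind K G = ind K (F ∪ G) := by
  ext A
  simp only [ContinuousMap.mul_apply, ind_apply, Finset.forall_mem_union]
  by_cases h1 : ∀ ξ ∈ F, A.1 ξ = true
  · by_cases h2 : ∀ ξ ∈ G, A.1 ξ = true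
    · rw [if_pos h1, if_pos h2, if_pos ⟨h1, h2⟩, one_mul]
    · rw [if_neg h2, if_neg (fun h : _ ∧ _ => h2 h.2), mul_zero]
  · rw [if_neg h1, if_neg (fun h : _ ∧ _ => h1 h.1), zero_mul]

/-- The point of the cube given by a finite set. -/
noncomputable def pt {W : Type} (F : Finset W) : W → Bool := fun ξ => decide (ξ ∈ F)

theorem norming_basis {W : Type} (K : Set (W → Bool)) (hK : IsClosed K) (P : Finset W → Prop)
    (hP : ∀ F, P F → pt F ∈ K)
    (hdense : K ⊆ closure {A | ∃ F, P F ∧ pt F = A})
    (hjoin : ∀ a : Finset W, ∃ F, P F ∧ ∀ A ∈ K, (∀ ξ ∈ a, A ξ = true) ↔ (∀ ξ ∈ F, A ξ = true)) :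
    ∃ (I : Type) (x : I → BoundedContinuousFunction (↥K) ℝ)
      (f : I → (BoundedContinuousFunction (↥K) ℝ →L[ℝ] ℝ)),
      (∀ i j : I, (i = j → f j (x i) = 1) ∧ (i ≠ j → f j (x i) = 0)) ∧
      (Submodule.span ℝ (Set.range x)).topologicalClosure = ⊤ ∧
      (∀ v : BoundedContinuousFunction (↥K) ℝ, (∀ i, f i v = 0) → v = 0) ∧
      ∃ c : ℝ, 0 < c ∧ ∀ v : BoundedContinuousFunction (↥K) ℝ, ∀ t : ℝ, t < c * ‖v‖ →
        ∃ φ ∈ Submodule.span ℝ (Set.range f), ‖φ‖ ≤ 1 ∧ t < |φ v| := by
  have : CompactSpace K := isCompact_iff_compactSpace.mp hK.isCompact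
  let D : Type := {F : Finset W // P F}
  let L := ContinuousMap.linearIsometryBoundedOfCompact K ℝ ℝ
  let p : D → K := fun d => ⟨pt d.1, hP d.1 d.2⟩
  let δ : D → (BoundedContinuousFunction (↥K) ℝ →L[ℝ] ℝ) :=
    fun d => BoundedContinuousFunction.evalCLM ℝ (p d)
  have hδ : ∀ d v, δ d v = v (p d) := fun d v => rfl
  let low : D → Finset D := fun d => d.1.ssubsets.subtype P
  have hlow : ∀ d c : D, c ∈ low d ↔ c.1 ⊂ d.1 := by
    intro d c
    exact Finset.mem_subtype.trans Finset.mem_ssubsets
  have hr : ∀ d : D, ∀ c ∈ low d, c.1.card < d.1.card :=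
    fun d c hc => Finset.card_lt_card ((hlow d c).1 hc)
  obtain ⟨μ, hμ⟩ := exists_mobius low (fun d => d.1.card) hr δ
  let x : D → BoundedContinuousFunction (↥K) ℝ := fun d => L (ind K d.1)
  have hx : ∀ c d : D, x c (p d) = if c.1 ⊆ d.1 then 1 else 0 := by
    intro c d
    have : x c (p d) = ind K c.1 (p d) := rfl
    rw [this, ind_apply]
    have h2 : (∀ ξ ∈ c.1, (p d).1 ξ = true) ↔ c.1 ⊆ d.1 := by
      simp only [p, pt, decide_eq_true_eq]
      exact Iff.rfl
    simp only [h2]
  -- biorthogonality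
  have hbi : ∀ (n : ℕ) (d : D), d.1.card = n → ∀ c : D, μ d (x c) = if c = d then 1 else 0 := by
    intro n
    induction n using Nat.strong_induction_on with
    | _ n ih =>
      intro d hd c
      rw [hμ d, sub_apply, sum_apply, hδ, hx]
      have h1 : ∑ e ∈ low d, μ e (x c) = ∑ e ∈ low d, if c = e then (1 : ℝ) else 0 := by
        refine Finset.sum_congr rfl fun e he => ?_
        exact ih _ (hd ▸ hr d e he) e rfl c
      rw [h1, Finset.sum_ite_eq]
      by_cases hcd : c = d
      · subst hcd
        have : c ∉ low c := fun h => lt_irrefl _ (hr c c h)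
        simp [this]
      · have h3 : c ∈ low d ↔ c.1 ⊆ d.1 := by
          rw [hlow, Finset.ssubset_iff_subset_ne]
          exact ⟨fun h => h.1, fun h => ⟨h, fun h' => hcd (Subtype.ext h')⟩⟩
        simp only [h3, if_neg hcd, sub_self]
  -- Dirac masses lie in the span of the functionals
  have hspan : ∀ d, δ d ∈ Submodule.span ℝ (Set.range μ) := by
    intro d
    have : δ d = μ d + ∑ c ∈ low d, μ c := by rw [hμ d]; abel
    rw [this]
    exact Submodule.add_mem _ (Submodule.subset_span ⟨d, rfl⟩)
      (Submodule.sum_mem _ fun c _ => Submodule.subset_span ⟨c, rfl⟩)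
  -- density of the finite members
  have hpd : DenseRange p := by
    intro A
    rw [closure_subtype]
    refine closure_mono ?_ (hdense A.2)
    rintro _ ⟨F, hF, rfl⟩
    exact ⟨p ⟨F, hF⟩, ⟨⟨F, hF⟩, rfl⟩, rfl⟩
  have hnorm : ∀ v : BoundedContinuousFunction (↥K) ℝ, ∀ t : ℝ, 0 ≤ t → t < ‖v‖ →
      ∃ d, t < |v (p d)| := by
    intro v t ht htv
    by_contra hcon
    push Not at hcon
    have hall : ∀ A : K, ‖v A‖ ≤ t := by
      intro A
      have hcl : IsClosed {A : K | ‖v A‖ ≤ t} :=
        isClosed_le (continuous_norm.comp v.continuous) continuous_const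
      have hsub : Set.range p ⊆ {A : K | ‖v A‖ ≤ t} := by
        rintro _ ⟨d, rfl⟩
        exact hcon d
      exact hcl.closure_subset_iff.2 hsub (hpd A)
    exact absurd ((BoundedContinuousFunction.norm_le ht).2 hall) (not_le.2 htv)
  refine ⟨D, x, μ, ?_, ?_, ?_, 1, one_pos, ?_⟩
  · intro i j
    rw [hbi _ j rfl i]
    exact ⟨fun h => if_pos h, fun h => if_neg h⟩
  · -- Stone-Weierstrass
    let V : Submodule ℝ C(K, ℝ) := Submodule.span ℝ (Set.range fun d : D => ind K d.1)
    have hV : ∀ a : Finset W, ind K a ∈ V := by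
      intro a
      obtain ⟨F, hF, hFa⟩ := hjoin a
      have : ind K a = ind K F := by
        ext A
        rw [ind_apply, ind_apply]
        simp only [hFa A.1 A.2]
      rw [this]
      exact Submodule.subset_span ⟨⟨F, hF⟩, rfl⟩
    have hone : (1 : C(K, ℝ)) ∈ V := by
      have := hV ∅
      simpa [ind] using this
    have hmul : ∀ u v, u ∈ V → v ∈ V → u * v ∈ V := by
      intro u v hu hv
      refine Submodule.span_induction (p := fun u _ => u * v ∈ V) ?_ ?_ ?_ ?_ hu
      · rintro _ ⟨c, rfl⟩
        refine Submodule.span_induction (p := fun v _ => ind K c.1 * v ∈ V) ?_ ?_ ?_ ?_ hv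
        · rintro _ ⟨d, rfl⟩
          rw [ind_mul]
          exact hV _
        · simp
        · intro a b _ _ ha hb
          rw [mul_add]
          exact V.add_mem ha hb
        · intro r a _ ha
          rw [mul_smul_comm]
          exact V.smul_mem r ha
      · simp
      · intro a b _ _ ha hb
        rw [add_mul]
        exact V.add_mem ha hb
      · intro r a _ ha
        rw [smul_mul_assoc]
        exact V.smul_mem r ha
    let A : Subalgebra ℝ C(K, ℝ) := V.toSubalgebra hone hmul
    have hsep : A.SeparatesPoints := by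
      intro a b hab
      have : ∃ ξ, a.1 ξ ≠ b.1 ξ := by
        by_contra hcon
        push Not at hcon
        exact hab (Subtype.ext (funext hcon))
      obtain ⟨ξ, hξ⟩ := this
      refine ⟨ind K {ξ}, ⟨ind K {ξ}, hV _, rfl⟩, ?_⟩
      rw [ind_apply, ind_apply]
      simp only [Finset.mem_singleton, forall_eq]
      revert hξ
      cases a.1 ξ <;> cases b.1 ξ <;> simp
    rw [eq_top_iff]
    intro v _
    rw [← SetLike.mem_coe, Submodule.topologicalClosure_coe, Metric.mem_closure_iff]
    intro ε hε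
    obtain ⟨g, hg⟩ :=
      ContinuousMap.exists_mem_subalgebra_near_continuousMap_of_separatesPoints A hsep
        (L.symm v) ε hε
    refine ⟨L g.1, ?_, ?_⟩
    · have hg2 : g.1 ∈ V := g.2
      refine Submodule.span_induction
        (p := fun u _ => L u ∈ Submodule.span ℝ (Set.range x)) ?_ ?_ ?_ ?_ hg2
      · rintro _ ⟨c, rfl⟩
        exact Submodule.subset_span ⟨c, rfl⟩
      · simp
      · intro a b _ _ ha hb
        rw [map_add]
        exact Submodule.add_mem _ ha hb
      · intro r a _ ha
        rw [map_smul]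
        exact Submodule.smul_mem _ r ha
    · rw [dist_comm, dist_eq_norm]
      have : L g.1 - v = L (g.1 - L.symm v) := by simp
      rw [this, L.norm_map]
      exact hg
  · intro v hv
    have h0 : ∀ d, v (p d) = 0 := by
      intro d
      rw [← hδ]
      refine Submodule.span_induction (p := fun φ _ => φ v = 0) ?_ ?_ ?_ ?_ (hspan d)
      · rintro _ ⟨c, rfl⟩
        exact hv c
      · simp
      · intro a b _ _ ha hb
        simp [ha, hb]
      · intro r a _ ha
        simp [ha]
    by_contra hne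
    obtain ⟨d, hd⟩ := hnorm v 0 le_rfl (norm_pos_iff.2 hne)
    rw [h0 d, abs_zero] at hd
    exact lt_irrefl _ hd
  · intro v t ht
    rw [one_mul] at ht
    by_cases h0 : t < 0
    · exact ⟨0, Submodule.zero_mem _, 
        ContinuousLinearMap.opNorm_le_bound _ zero_le_one (fun w => by simp), by simpa using h0⟩
    · obtain ⟨d, hd⟩ := hnorm v t (not_lt.1 h0) ht
      refine ⟨δ d, hspan d, ?_, hd⟩
      refine ContinuousLinearMap.opNorm_le_bound _ zero_le_one fun w => ?_
      rw [one_mul, hδ]
      exact w.norm_coe_le_norm _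

end Pool.Agent.Lib.MP_d2b9e5_an
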