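import Mathlib

set_option autoImplicit false

namespace Pool.Agent.Lib.MP_d2b9e5_an.Fs

open Classical

variable {M N : Type} [AddCommGroup M] [Module ℝ M] [AddCommGroup N] [Module ℝ N]

/-- A set of pairs is biorthogonal for the pairing `B`. -/
def Bi (B : M →ₗ[ℝ] N →ₗ[ℝ] ℝ) (S : Set (M × N)) : Prop :=
  ∀ p ∈ S, ∀ q ∈ S, (p = q → B p.1 q.2 = 1) ∧ (p ≠ q → B p.1 q.2 = 0)

theorem Bi.swap {B : M →ₗ[ℝ] N →ₗ[ℝ] ℝ} {S : Set (M × N)} (h : Bi B S) :
    Bi B.flip (Prod.swap '' S) := by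
  rintro _ ⟨p, hp, rfl⟩ _ ⟨q, hq, rfl⟩
  refine ⟨fun e => ?_, fun e => ?_⟩
  · exact (h q hq p hp).1 (Prod.swap_injective e).symm
  · exact (h q hq p hp).2 fun e2 => e (by rw [e2])

theorem step (B : M →ₗ[ℝ] N →ₗ[ℝ] ℝ) (E : Submodule ℝ M) (W : Submodule ℝ N)
    (hE : ∀ u ∈ E, (∀ w ∈ W, B u w = 0) → u = 0)
    (S : Set (M × N)) (hfin : S.Finite) (hS : ∀ p ∈ S, p.1 ∈ E ∧ p.2 ∈ W) (hB : Bi B S)
    (e : M) (he : e ∈ E) :
    ∃ T : Set (M × N), S ⊆ T ∧ T.Finite ∧ (∀ p ∈ T, p.1 ∈ E ∧ p.2 ∈ W) ∧ Bi B T ∧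
      e ∈ Submodule.span ℝ (Prod.fst '' T) := by
  set s := hfin.toFinset with hs
  have hmem : ∀ p, p ∈ s ↔ p ∈ S := fun p => hfin.mem_toFinset
  set r : M := ∑ p ∈ s, B e p.2 • p.1 with hr
  have hrE : r ∈ E := E.sum_mem fun p hp => E.smul_mem _ (hS p ((hmem p).1 hp)).1
  have hrS : ∀ T : Set (M × N), S ⊆ T → r ∈ Submodule.span ℝ (Prod.fst '' T) := by
    intro T hT
    exact Submodule.sum_mem _ fun p hp => Submodule.smul_mem _ _
      (Submodule.subset_span ⟨p, hT ((hmem p).1 hp), rfl⟩)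
  have hort : ∀ q ∈ S, B (e - r) q.2 = 0 := by
    intro q hq
    have h1 : B r q.2 = B e q.2 := by
      rw [hr, map_sum, LinearMap.sum_apply, Finset.sum_eq_single q]
      · rw [map_smul, LinearMap.smul_apply, (hB q hq q hq).1 rfl]
        simp
      · intro p hp hpq
        rw [map_smul, LinearMap.smul_apply, (hB p ((hmem p).1 hp) q hq).2 hpq]
        simp
      · intro h
        exact absurd ((hmem q).2 hq) h
    rw [map_sub, LinearMap.sub_apply, h1, sub_self]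
  by_cases h0 : e - r = 0
  · refine ⟨S, subset_rfl, hfin, hS, hB, ?_⟩
    rw [sub_eq_zero.1 h0]
    exact hrS S subset_rfl
  · have : ∃ w ∈ W, B (e - r) w ≠ 0 := by
      by_contra hcon
      push Not at hcon
      exact h0 (hE _ (E.sub_mem he hrE) hcon)
    obtain ⟨w0, hw0, hne⟩ := this
    set w : N := (B (e - r) w0)⁻¹ • w0 with hw
    have hwW : w ∈ W := W.smul_mem _ hw0
    have hw1 : B (e - r) w = 1 := by
      rw [hw, map_smul, smul_eq_mul, inv_mul_cancel₀ hne]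
    set t : N := ∑ p ∈ s, B p.1 w • p.2 with ht
    have htW : t ∈ W := W.sum_mem fun p hp => W.smul_mem _ (hS p ((hmem p).1 hp)).2
    have hort2 : ∀ q ∈ S, B q.1 (w - t) = 0 := by
      intro q hq
      have h1 : B q.1 t = B q.1 w := by
        rw [ht, map_sum, Finset.sum_eq_single q]
        · rw [map_smul, (hB q hq q hq).1 rfl]
          simp
        · intro p hp hpq
          rw [map_smul, (hB q hq p ((hmem p).1 hp)).2 (Ne.symm hpq)]
          simp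
        · intro h
          exact absurd ((hmem q).2 hq) h
      rw [map_sub, h1, sub_self]
    have hone : B (e - r) (w - t) = 1 := by
      have h1 : B (e - r) t = 0 := by
        rw [ht, map_sum]
        refine Finset.sum_eq_zero fun p hp => ?_
        rw [map_smul, hort p ((hmem p).1 hp)]
        simp
      rw [map_sub, hw1, h1, sub_zero]
    refine ⟨insert (e - r, w - t) S, Set.subset_insert _ _, hfin.insert _, ?_, ?_, ?_⟩
    · rintro p (rfl | hp)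
      · exact ⟨E.sub_mem he hrE, W.sub_mem hwW htW⟩
      · exact hS p hp
    · rintro p (rfl | hp) q (rfl | hq)
      · exact ⟨fun _ => hone, fun h => absurd rfl h⟩
      · refine ⟨fun h => ?_, fun _ => hort q hq⟩
        rw [← h]
        exact hone
      · refine ⟨fun h => ?_, fun _ => hort2 p hp⟩
        rw [h]
        exact hone
      · exact hB p hp q hq
    · have h2 : (e - r) + r ∈ Submodule.span ℝ (Prod.fst '' insert (e - r, w - t) S) :=
        Submodule.add_mem _ (Submodule.subset_span ⟨(e - r, w - t), Or.inl rfl, rfl⟩)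
          (hrS _ (Set.subset_insert _ _))
      rwa [sub_add_cancel] at h2

theorem step2 (B : M →ₗ[ℝ] N →ₗ[ℝ] ℝ) (E : Submodule ℝ M) (W : Submodule ℝ N)
    (hE : ∀ u ∈ E, (∀ w ∈ W, B u w = 0) → u = 0)
    (hW : ∀ w ∈ W, (∀ u ∈ E, B u w = 0) → w = 0)
    (S : Set (M × N)) (hfin : S.Finite) (hS : ∀ p ∈ S, p.1 ∈ E ∧ p.2 ∈ W) (hB : Bi B S)
    (e : M) (he : e ∈ E) (v : N) (hv : v ∈ W) :
    ∃ T : Set (M × N), S ⊆ T ∧ T.Finite ∧ (∀ p ∈ T, p.1 ∈ E ∧ p.2 ∈ W) ∧ Bi B T ∧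
      e ∈ Submodule.span ℝ (Prod.fst '' T) ∧ v ∈ Submodule.span ℝ (Prod.snd '' T) := by
  obtain ⟨T, hST, hT, hTE, hTB, heT⟩ := step B E W hE S hfin hS hB e he
  obtain ⟨U, hTU, hU, hUE, hUB, hvU⟩ := step B.flip W E hW (Prod.swap '' T) (hT.image _)
    (by rintro _ ⟨p, hp, rfl⟩; exact ⟨(hTE p hp).2, (hTE p hp).1⟩) hTB.swap v hv
  have hsub : T ⊆ Prod.swap '' U := fun p hp => ⟨p.swap, hTU ⟨p, hp, rfl⟩, by simp⟩
  refine ⟨Prod.swap '' U, hST.trans hsub, hU.image _, ?_, hUB.swap, ?_, ?_⟩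
  · rintro _ ⟨p, hp, rfl⟩
    exact ⟨(hUE p hp).2, (hUE p hp).1⟩
  · exact Submodule.span_mono (Set.image_mono hsub) heT
  · refine Submodule.span_mono ?_ hvU
    rintro _ ⟨p, hp, rfl⟩
    exact ⟨p.swap, ⟨p, hp, rfl⟩, rfl⟩

/-- Biorthogonalisation of a separated pairing along two countable sets. -/
theorem mackey (B : M →ₗ[ℝ] N →ₗ[ℝ] ℝ) (E : Submodule ℝ M) (W : Submodule ℝ N)
    (hE : ∀ u ∈ E, (∀ w ∈ W, B u w = 0) → u = 0)
    (hW : ∀ w ∈ W, (∀ u ∈ E, B u w = 0) → w = 0)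
    (a : Set M) (ha : a.Countable) (haE : a ⊆ E) (b : Set N) (hb : b.Countable) (hbW : b ⊆ W) :
    ∃ S : Set (M × N), (∀ p ∈ S, p.1 ∈ E ∧ p.2 ∈ W) ∧ Bi B S ∧
      a ⊆ Submodule.span ℝ (Prod.fst '' S) ∧ b ⊆ Submodule.span ℝ (Prod.snd '' S) := by
  obtain ⟨e, he⟩ := (ha.insert 0).exists_eq_range ⟨0, Or.inl rfl⟩
  obtain ⟨v, hv⟩ := (hb.insert 0).exists_eq_range ⟨0, Or.inl rfl⟩
  have heE : ∀ n, e n ∈ E := by
    intro n
    have : e n ∈ insert 0 a := he ▸ ⟨n, rfl⟩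
    rcases this with h | h
    · rw [h]; exact E.zero_mem
    · exact haE h
  have hvW : ∀ n, v n ∈ W := by
    intro n
    have : v n ∈ insert 0 b := hv ▸ ⟨n, rfl⟩
    rcases this with h | h
    · rw [h]; exact W.zero_mem
    · exact hbW h
  let G : Type := {S : Set (M × N) // S.Finite ∧ (∀ p ∈ S, p.1 ∈ E ∧ p.2 ∈ W) ∧ Bi B S}
  have hstep : ∀ (n : ℕ) (S : G), ∃ T : G, S.1 ⊆ T.1 ∧
      e n ∈ Submodule.span ℝ (Prod.fst '' T.1) ∧ v n ∈ Submodule.span ℝ (Prod.snd '' T.1) := by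
    intro n S
    obtain ⟨T, h1, h2, h3, h4, h5, h6⟩ :=
      step2 B E W hE hW S.1 S.2.1 S.2.2.1 S.2.2.2 (e n) (heE n) (v n) (hvW n)
    exact ⟨⟨T, h2, h3, h4⟩, h1, h5, h6⟩
  choose F hF using hstep
  let G0 : G := ⟨∅, Set.finite_empty, by simp, by simp [Bi]⟩
  let sq : ℕ → G := fun n => Nat.rec G0 (fun k S => F k S) n
  have hsq : ∀ n, sq (n + 1) = F n (sq n) := fun n => rfl
  have hmono : Monotone fun n => (sq n).1 :=
    monotone_nat_of_le_succ fun n => by rw [hsq]; exact (hF n (sq n)).1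
  refine ⟨⋃ n, (sq n).1, ?_, ?_, ?_, ?_⟩
  · intro p hp
    obtain ⟨n, hn⟩ := Set.mem_iUnion.1 hp
    exact (sq n).2.2.1 p hn
  · intro p hp q hq
    obtain ⟨n, hn⟩ := Set.mem_iUnion.1 hp
    obtain ⟨m, hm⟩ := Set.mem_iUnion.1 hq
    exact (sq (max n m)).2.2.2 p (hmono (le_max_left n m) hn) q (hmono (le_max_right n m) hm)
  · intro u hu
    have : u ∈ Set.range e := he ▸ Or.inr hu
    obtain ⟨n, rfl⟩ := this
    exact Submodule.span_mono (Set.image_mono (Set.subset_iUnion (fun n => (sq n).1) (n + 1)))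
      (hF n (sq n)).2.1
  · intro u hu
    have : u ∈ Set.range v := hv ▸ Or.inr hu
    obtain ⟨n, rfl⟩ := this
    exact Submodule.span_mono (Set.image_mono (Set.subset_iUnion (fun n => (sq n).1) (n + 1)))
      (hF n (sq n)).2.2

end Pool.Agent.Lib.MP_d2b9e5_an.Fs
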