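import Mathlib
import Pool.Agent.Lib.MP_d2b9e5_an.FsMackey

set_option autoImplicit false

namespace Pool.Agent.Lib.MP_d2b9e5_an.Fs

open Classical

variable {X : Type} [NormedAddCommGroup X] [NormedSpace ℝ X] {Γ : Type}

/-- The support of a functional on the family `x`. -/
def supp (x : Γ → X) (φ : X →L[ℝ] ℝ) : Set Γ := {g | φ (x g) ≠ 0}

/-- `ψ` is the restriction of `φ` to the index set `A`. -/
def Res (x : Γ → X) (A : Set Γ) (φ ψ : X →L[ℝ] ℝ) : Prop :=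
  (∀ g ∈ A, ψ (x g) = φ (x g)) ∧ ∀ g, g ∉ A → ψ (x g) = 0

/-- Every finitely supported functional has a bounded restriction to `A`. -/
def Split (x : Γ → X) (A : Set Γ) : Prop :=
  ∀ φ : X →L[ℝ] ℝ, (supp x φ).Finite → ∃ ψ, Res x A φ ψ

theorem Res.supp_subset {x : Γ → X} {A : Set Γ} {φ ψ : X →L[ℝ] ℝ} (h : Res x A φ ψ) :
    supp x ψ ⊆ supp x φ ∩ A := by
  intro g hg
  have hA : g ∈ A := by
    by_contra hcon
    exact hg (h.2 g hcon)
  refine ⟨?_, hA⟩
  intro h0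
  exact hg ((h.1 g hA).trans h0)

theorem Split.compl {x : Γ → X} {A : Set Γ} (h : Split x A) : Split x Aᶜ := by
  intro φ hφ
  obtain ⟨ψ, hψ⟩ := h φ hφ
  refine ⟨φ - ψ, fun g hg => ?_, fun g hg => ?_⟩
  · rw [sub_apply, hψ.2 g hg, sub_zero]
  · rw [sub_apply, hψ.1 g (not_not.1 hg), sub_self]

/-- The atom of the field of splitting sets that contains `g`. -/
def atom (x : Γ → X) (g : Γ) : Set Γ := {d | ∀ A, Split x A → g ∈ A → d ∈ A}

theorem self_mem_atom (x : Γ → X) (g : Γ) : g ∈ atom x g := fun _ _ h => h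

theorem atom_symm {x : Γ → X} {g d : Γ} (h : d ∈ atom x g) : g ∈ atom x d := by
  intro A hA hd
  by_contra hg
  exact h Aᶜ hA.compl hg hd

theorem atom_eq {x : Γ → X} {g d : Γ} (h : d ∈ atom x g) : atom x d = atom x g := by
  ext k
  exact ⟨fun hk A hA hg => hk A hA (h A hA hg), fun hk A hA hd => hk A hA (atom_symm h A hA hd)⟩

theorem split_atom (x : Γ → X) (g : Γ) : Split x (atom x g) := by
  have key : ∀ (n : ℕ) (φ : X →L[ℝ] ℝ), (supp x φ).Finite →
      (supp x φ \ atom x g).ncard = n → ∃ ψ, Res x (atom x g) φ ψ := by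
    intro n
    induction n using Nat.strong_induction_on with
    | _ n ih =>
      intro φ hφ hn
      by_cases h0 : supp x φ ⊆ atom x g
      · refine ⟨φ, fun _ _ => rfl, fun d hd => ?_⟩
        by_contra hcon
        exact hd (h0 hcon)
      · obtain ⟨d, hd1, hd2⟩ := Set.not_subset.1 h0
        have : ∃ A, Split x A ∧ g ∈ A ∧ d ∉ A := by
          by_contra hcon
          push Not at hcon
          exact hd2 hcon
        obtain ⟨A, hA, hgA, hdA⟩ := this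
        obtain ⟨ψ, hψ⟩ := hA φ hφ
        have hfin : (supp x ψ).Finite := hφ.subset (hψ.supp_subset.trans Set.inter_subset_left)
        have hlt : (supp x ψ \ atom x g).ncard < n := by
          rw [← hn]
          refine Set.ncard_lt_ncard ⟨?_, ?_⟩ (hφ.subset Set.sdiff_subset)
          · exact Set.sdiff_subset_sdiff_left (hψ.supp_subset.trans Set.inter_subset_left)
          · intro hsub
            exact hdA (hψ.supp_subset (hsub ⟨hd1, hd2⟩).1).2
        obtain ⟨χ, hχ⟩ := ih _ hlt ψ hfin rfl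
        exact ⟨χ, fun k hk => (hχ.1 k hk).trans (hψ.1 k (hk A hA hgA)), hχ.2⟩
  exact fun φ hφ => key _ φ hφ rfl

theorem eq_zero_of_dense {x : Γ → X}
    (hd : (Submodule.span ℝ (Set.range x)).topologicalClosure = ⊤) (φ : X →L[ℝ] ℝ)
    (h : ∀ g, φ (x g) = 0) : φ = 0 := by
  have hd2 : Dense (Submodule.span ℝ (Set.range x) : Set X) :=
    Submodule.dense_iff_topologicalClosure_eq_top.2 hd
  refine ContinuousLinearMap.ext_on hd2 ?_
  rintro _ ⟨g, rfl⟩
  simpa using h g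

theorem vanish_span {x : Γ → X} {A : Set Γ} (φ : X →L[ℝ] ℝ) (h : ∀ g ∈ A, φ (x g) = 0)
    (u : X) (hu : u ∈ Submodule.span ℝ (x '' A)) : φ u = 0 := by
  refine Submodule.span_induction (p := fun u _ => φ u = 0) ?_ ?_ ?_ ?_ hu
  · rintro _ ⟨g, hg, rfl⟩
    exact h g hg
  · simp
  · intro a b _ _ ha hb
    simp [ha, hb]
  · intro r a _ ha
    simp [ha]

/-- A set that carries its own norming functionals splits. -/
theorem split_of_good {x : Γ → X}
    (hd : (Submodule.span ℝ (Set.range x)).topologicalClosure = ⊤) {c : ℝ} (hc : 0 < c)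
    {A : Set Γ}
    (hA : ∀ u ∈ Submodule.span ℝ (x '' A), ∃ φ : X →L[ℝ] ℝ,
      supp x φ ⊆ A ∧ ‖φ‖ ≤ 1 ∧ c * ‖u‖ ≤ |φ u|) : Split x A := by
  intro φ _
  let L : (Γ →₀ ℝ) →ₗ[ℝ] X := Finsupp.linearCombination ℝ x
  let P : (Γ →₀ ℝ) →ₗ[ℝ] X := Finsupp.linearCombination ℝ (fun g => if g ∈ A then x g else 0)
  let Q : (Γ →₀ ℝ) →ₗ[ℝ] X := Finsupp.linearCombination ℝ (fun g => if g ∈ A then 0 else x g)
  have hL : L = P + Q := by
    ext g
    by_cases hg : g ∈ A <;> simp [L, P, Q, hg]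
  have hP : ∀ a, P a ∈ Submodule.span ℝ (x '' A) := by
    intro a
    have h1 : P a ∈ LinearMap.range P := ⟨a, rfl⟩
    rw [Finsupp.range_linearCombination] at h1
    refine Submodule.span_le.2 ?_ h1
    rintro _ ⟨g, rfl⟩
    by_cases hg : g ∈ A
    · simp only [hg, if_true]
      exact Submodule.subset_span ⟨g, hg, rfl⟩
    · simp only [hg, if_false]
      exact Submodule.zero_mem _
  have hQ : ∀ a, Q a ∈ Submodule.span ℝ (x '' Aᶜ) := by
    intro a
    have h1 : Q a ∈ LinearMap.range Q := ⟨a, rfl⟩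
    rw [Finsupp.range_linearCombination] at h1
    refine Submodule.span_le.2 ?_ h1
    rintro _ ⟨g, rfl⟩
    by_cases hg : g ∈ A
    · simp only [hg, if_true]
      exact Submodule.zero_mem _
    · simp only [hg, if_false]
      exact Submodule.subset_span ⟨g, hg, rfl⟩
  have hbd : ∀ a, c * ‖P a‖ ≤ ‖L a‖ := by
    intro a
    obtain ⟨χ, hχ1, hχ2, hχ3⟩ := hA (P a) (hP a)
    have h0 : χ (Q a) = 0 := by
      refine vanish_span χ (fun g hg => ?_) _ (hQ a)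
      by_contra hcon
      exact hg (hχ1 hcon)
    have h1 : χ (L a) = χ (P a) := by
      rw [hL, LinearMap.add_apply, map_add, h0, add_zero]
    calc c * ‖P a‖ ≤ |χ (L a)| := h1 ▸ hχ3
      _ ≤ ‖χ‖ * ‖L a‖ := χ.le_opNorm _
      _ ≤ 1 * ‖L a‖ := mul_le_mul_of_nonneg_right hχ2 (norm_nonneg _)
      _ = ‖L a‖ := one_mul _
  let f : (Γ →₀ ℝ) →ₗ[ℝ] ℝ := φ.toLinearMap.comp P
  have hdense : DenseRange L := by
    have hd2 : Dense (Submodule.span ℝ (Set.range x) : Set X) :=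
      Submodule.dense_iff_topologicalClosure_eq_top.2 hd
    rw [← Finsupp.range_linearCombination] at hd2
    exact hd2
  have hnorm : ∃ C, ∀ a, ‖f a‖ ≤ C * ‖L a‖ := by
    refine ⟨‖φ‖ * c⁻¹, fun a => ?_⟩
    have h1 : ‖P a‖ ≤ c⁻¹ * ‖L a‖ := by
      rw [le_inv_mul_iff₀ hc]
      exact hbd a
    calc ‖f a‖ ≤ ‖φ‖ * ‖P a‖ := φ.le_opNorm _
      _ ≤ ‖φ‖ * (c⁻¹ * ‖L a‖) := mul_le_mul_of_nonneg_left h1 (norm_nonneg _)
      _ = ‖φ‖ * c⁻¹ * ‖L a‖ := by ring
  have hval : ∀ g, f.extendOfNorm L (x g) = φ (if g ∈ A then x g else 0) := by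
    intro g
    have h1 : x g = L (Finsupp.single g 1) := by simp [L]
    rw [h1, LinearMap.extendOfNorm_eq hdense hnorm]
    simp [f, P, L]
  refine ⟨f.extendOfNorm L, fun g hg => ?_, fun g hg => ?_⟩
  · rw [hval, if_pos hg]
  · rw [hval, if_neg hg, map_zero]

/-- One closing-off step. -/
theorem close_step {x : Γ → X} {c : ℝ} (hc : 0 < c)
    (hn : ∀ v : X, ∀ t : ℝ, t < c * ‖v‖ →
      ∃ φ : X →L[ℝ] ℝ, (supp x φ).Finite ∧ ‖φ‖ ≤ 1 ∧ t < |φ v|)
    (A : Set Γ) (hA : A.Countable) :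
    ∃ B : Set Γ, B.Countable ∧ A ⊆ B ∧ ∀ u ∈ Submodule.span ℝ (x '' A), ∃ φ : X →L[ℝ] ℝ,
      supp x φ ⊆ B ∧ ‖φ‖ ≤ 1 ∧ c / 2 * ‖u‖ ≤ |φ u| := by
  have hsep : TopologicalSpace.IsSeparable (Submodule.span ℝ (x '' A) : Set X) :=
    (hA.image x).isSeparable.span
  obtain ⟨s, hs, hcl⟩ := hsep
  have h1 : ∀ v : X, ∃ φ : X →L[ℝ] ℝ,
      (supp x φ).Finite ∧ ‖φ‖ ≤ 1 ∧ 3 / 4 * c * ‖v‖ ≤ |φ v| := by
    intro v
    by_cases hv : v = 0
    · refine ⟨0, ?_, by simp, by simp [hv]⟩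
      simp [supp]
    · have hpos : 0 < c * ‖v‖ := mul_pos hc (norm_pos_iff.2 hv)
      obtain ⟨φ, h1, h2, h3⟩ := hn v (3 / 4 * c * ‖v‖) (by nlinarith)
      exact ⟨φ, h1, h2, h3.le⟩
  choose F hF using h1
  refine ⟨A ∪ ⋃ v ∈ s, supp x (F v), hA.union (hs.biUnion fun v _ => (hF v).1.countable),
    Set.subset_union_left, fun u hu => ?_⟩
  by_cases hu0 : u = 0
  · refine ⟨0, ?_, by simp, by simp [hu0]⟩
    simp [supp]
  · have hpos : 0 < ‖u‖ := norm_pos_iff.2 hu0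
    have hε : 0 < c / 4 * ‖u‖ / (c + 1) := by positivity
    obtain ⟨v, hv, hdist⟩ := Metric.mem_closure_iff.1 (hcl hu) _ hε
    refine ⟨F v, fun g hg => Or.inr (Set.mem_biUnion hv hg), (hF v).2.1, ?_⟩
    rw [dist_eq_norm, lt_div_iff₀ (by positivity)] at hdist
    have h2 : |F v (u - v)| ≤ ‖u - v‖ := by
      calc |F v (u - v)| ≤ ‖F v‖ * ‖u - v‖ := (F v).le_opNorm _
        _ ≤ 1 * ‖u - v‖ := mul_le_mul_of_nonneg_right (hF v).2.1 (norm_nonneg _)
        _ = ‖u - v‖ := one_mul _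
    have h3 : |F v v| ≤ |F v u| + |F v (u - v)| := by
      have : F v v = F v u - F v (u - v) := by simp
      rw [this]
      exact abs_sub _ _
    have h4 : ‖u‖ ≤ ‖v‖ + ‖u - v‖ := by
      have := norm_add_le v (u - v)
      simpa using this
    have h5 := (hF v).2.2
    have h6 : 0 ≤ ‖u - v‖ := norm_nonneg _
    nlinarith [mul_le_mul_of_nonneg_left h4 hc.le, mul_nonneg hc.le h6]

theorem atom_countable {x : Γ → X}
    (hd : (Submodule.span ℝ (Set.range x)).topologicalClosure = ⊤) {c : ℝ} (hc : 0 < c)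
    (hn : ∀ v : X, ∀ t : ℝ, t < c * ‖v‖ →
      ∃ φ : X →L[ℝ] ℝ, (supp x φ).Finite ∧ ‖φ‖ ≤ 1 ∧ t < |φ v|)
    (g : Γ) : (atom x g).Countable := by
  let G : Type := {A : Set Γ // A.Countable}
  have hstep : ∀ A : G, ∃ B : G, A.1 ⊆ B.1 ∧ ∀ u ∈ Submodule.span ℝ (x '' A.1),
      ∃ φ : X →L[ℝ] ℝ, supp x φ ⊆ B.1 ∧ ‖φ‖ ≤ 1 ∧ c / 2 * ‖u‖ ≤ |φ u| := by
    intro A
    obtain ⟨B, h1, h2, h3⟩ := close_step hc hn A.1 A.2
    exact ⟨⟨B, h1⟩, h2, h3⟩
  choose F hF using hstep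
  let sq : ℕ → G := fun n => Nat.rec ⟨{g}, Set.countable_singleton g⟩ (fun _ A => F A) n
  have hsq : ∀ n, sq (n + 1) = F (sq n) := fun n => rfl
  have hmono : Monotone fun n => (sq n).1 :=
    monotone_nat_of_le_succ fun n => by rw [hsq]; exact (hF (sq n)).1
  have hsplit : Split x (⋃ n, (sq n).1) := by
    refine split_of_good hd (half_pos hc) fun u hu => ?_
    rw [Set.image_iUnion, Submodule.span_iUnion] at hu
    have hdir : Directed (· ≤ ·) fun n => Submodule.span ℝ (x '' (sq n).1) :=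
      Monotone.directed_le fun n m h => Submodule.span_mono (Set.image_mono (hmono h))
    obtain ⟨n, hn2⟩ := (Submodule.mem_iSup_of_directed _ hdir).1 hu
    obtain ⟨φ, h1, h2, h3⟩ := (hF (sq n)).2 u hn2
    exact ⟨φ, h1.trans (Set.subset_iUnion (fun n => (sq n).1) (n + 1)), h2, h3⟩
  refine (Set.countable_iUnion fun n => (sq n).2).mono fun d hd2 => ?_
  exact hd2 _ hsplit (Set.mem_iUnion.2 ⟨0, rfl⟩)

end Pool.Agent.Lib.MP_d2b9e5_an.Fs
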