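import Mathlib
import Pool.Agent.Lib.MP_d2b9e5_an.FsSplit

set_option autoImplicit false

namespace Pool.Agent.Lib.MP_d2b9e5_an.Fs

open Classical

variable {X : Type} [NormedAddCommGroup X] [NormedSpace ℝ X] {Γ : Type}

/-- The evaluation pairing. -/
noncomputable def ev (X : Type) [NormedAddCommGroup X] [NormedSpace ℝ X] :
    X →ₗ[ℝ] (X →L[ℝ] ℝ) →ₗ[ℝ] ℝ :=
  LinearMap.mk₂ ℝ (fun u φ => φ u) (fun a b φ => map_add φ a b) (fun r a φ => map_smul φ r a)
    (fun _ _ _ => rfl) (fun _ _ _ => rfl)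

theorem ev_apply (u : X) (φ : X →L[ℝ] ℝ) : ev X u φ = φ u := rfl

/-- Finitely supported functionals with support in `A`. -/
def finIn (x : Γ → X) (A : Set Γ) : Submodule ℝ (X →L[ℝ] ℝ) where
  carrier := {φ | (supp x φ).Finite ∧ supp x φ ⊆ A}
  add_mem' := by
    intro φ ψ hφ hψ
    have h : supp x (φ + ψ) ⊆ supp x φ ∪ supp x ψ := by
      intro g hg
      by_contra hcon
      simp only [supp, Set.mem_union, Set.mem_ofPred_eq, not_or, not_not] at hcon
      exact hg (by rw [add_apply, hcon.1, hcon.2, add_zero])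
    exact ⟨(hφ.1.union hψ.1).subset h, h.trans (Set.union_subset hφ.2 hψ.2)⟩
  zero_mem' := by simp [supp]
  smul_mem' := by
    intro r φ hφ
    have h : supp x (r • φ) ⊆ supp x φ := by
      intro g hg h0
      exact hg (by rw [smul_apply, h0, smul_zero])
    exact ⟨hφ.1.subset h, h.trans hφ.2⟩

theorem mem_finIn {x : Γ → X} {A : Set Γ} {φ : X →L[ℝ] ℝ} :
    φ ∈ finIn x A ↔ (supp x φ).Finite ∧ supp x φ ⊆ A := Iff.rfl

theorem finIn_fg {x : Γ → X}
    (hd : (Submodule.span ℝ (Set.range x)).topologicalClosure = ⊤) (F : Set Γ) (hF : F.Finite) :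
    ∃ t : Set (X →L[ℝ] ℝ), t.Finite ∧ Submodule.span ℝ t = finIn x F := by
  have : Finite F := hF
  let T : finIn x F →ₗ[ℝ] (F → ℝ) :=
    LinearMap.pi fun g : F => (ev X (x g)).comp (finIn x F).subtype
  have hT : Function.Injective T := by
    rw [injective_iff_map_eq_zero]
    intro φ hφ
    refine Subtype.ext (eq_zero_of_dense hd _ fun g => ?_)
    by_cases hg : g ∈ F
    · exact congrFun hφ ⟨g, hg⟩
    · by_contra hcon
      exact hg (φ.2.2 hcon)
  have hfin : Module.Finite ℝ (finIn x F) := Module.Finite.of_injective T hT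
  exact Submodule.fg_def.1 (Module.Finite.iff_fg.1 hfin)

theorem finIn_countable {x : Γ → X}
    (hd : (Submodule.span ℝ (Set.range x)).topologicalClosure = ⊤) (C : Set Γ)
    (hC : C.Countable) :
    ∃ b : Set (X →L[ℝ] ℝ), b.Countable ∧ b ⊆ finIn x C ∧ finIn x C ≤ Submodule.span ℝ b := by
  have h1 : ∀ F : Set Γ, ∃ t : Set (X →L[ℝ] ℝ),
      F.Finite → t.Finite ∧ Submodule.span ℝ t = finIn x F := by
    intro F
    by_cases hF : F.Finite
    · obtain ⟨t, ht⟩ := finIn_fg hd F hF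
      exact ⟨t, fun _ => ht⟩
    · exact ⟨∅, fun h => absurd h hF⟩
  choose t ht using h1
  refine ⟨⋃ F ∈ {F : Set Γ | F.Finite ∧ F ⊆ C}, t F,
    (Set.countable_ofPred_finite_subset hC).biUnion fun F hF => (ht F hF.1).1.countable, ?_, ?_⟩
  · intro φ hφ
    obtain ⟨F, hF, hφF⟩ := Set.mem_iUnion₂.1 hφ
    have : φ ∈ finIn x F := (ht F hF.1).2 ▸ Submodule.subset_span hφF
    exact ⟨this.1, this.2.trans hF.2⟩
  · intro φ hφ
    have : φ ∈ Submodule.span ℝ (t (supp x φ)) := by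
      rw [(ht _ hφ.1).2]
      exact ⟨hφ.1, subset_rfl⟩
    exact Submodule.span_mono
      (Set.subset_biUnion_of_mem (u := t) (show supp x φ ∈ {F : Set Γ | F.Finite ∧ F ⊆ C} from hφ))
      this

theorem atom_system {x : Γ → X}
    (hd : (Submodule.span ℝ (Set.range x)).topologicalClosure = ⊤) {c : ℝ} (hc : 0 < c)
    (hn : ∀ v : X, ∀ t : ℝ, t < c * ‖v‖ →
      ∃ φ : X →L[ℝ] ℝ, (supp x φ).Finite ∧ ‖φ‖ ≤ 1 ∧ t < |φ v|)
    (g : Γ) :
    ∃ S : Set (X × (X →L[ℝ] ℝ)),
      (∀ p ∈ S, p.1 ∈ Submodule.span ℝ (x '' atom x g) ∧ p.2 ∈ finIn x (atom x g)) ∧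
      Bi (ev X) S ∧ x '' atom x g ⊆ Submodule.span ℝ (Prod.fst '' S) ∧
      finIn x (atom x g) ≤ Submodule.span ℝ (Prod.snd '' S) := by
  have hC := atom_countable hd hc hn g
  obtain ⟨b, hb1, hb2, hb3⟩ := finIn_countable hd _ hC
  have hE : ∀ u ∈ Submodule.span ℝ (x '' atom x g),
      (∀ w ∈ finIn x (atom x g), ev X u w = 0) → u = 0 := by
    intro u hu h0
    by_contra hne
    obtain ⟨φ, hφ1, _, hφ3⟩ := hn u 0 (mul_pos hc (norm_pos_iff.2 hne))
    obtain ⟨ψ, hψ⟩ := split_atom x g φ hφ1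
    have hψm : ψ ∈ finIn x (atom x g) :=
      ⟨hφ1.subset (hψ.supp_subset.trans Set.inter_subset_left),
        hψ.supp_subset.trans Set.inter_subset_right⟩
    have h5 : (φ - ψ) u = 0 :=
      vanish_span (φ - ψ) (fun k hk => by rw [sub_apply, hψ.1 k hk, sub_self]) u hu
    have h6 : ψ u = 0 := h0 ψ hψm
    rw [sub_apply, h6, sub_zero] at h5
    rw [h5, abs_zero] at hφ3
    exact lt_irrefl _ hφ3
  have hW : ∀ w ∈ finIn x (atom x g),
      (∀ u ∈ Submodule.span ℝ (x '' atom x g), ev X u w = 0) → w = 0 := by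
    intro φ hφ h0
    refine eq_zero_of_dense hd φ fun k => ?_
    by_contra hcon
    exact hcon (h0 (x k) (Submodule.subset_span ⟨k, hφ.2 hcon, rfl⟩))
  obtain ⟨S, h1, h2, h3, h4⟩ := mackey (ev X) (Submodule.span ℝ (x '' atom x g))
    (finIn x (atom x g)) hE hW (x '' atom x g) (hC.image x) Submodule.subset_span b hb1 hb2
  exact ⟨S, h1, h2, h3, hb3.trans (Submodule.span_le.2 h4)⟩

theorem exists_system {x : Γ → X}
    (hd : (Submodule.span ℝ (Set.range x)).topologicalClosure = ⊤) {c : ℝ} (hc : 0 < c)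
    (hn : ∀ v : X, ∀ t : ℝ, t < c * ‖v‖ →
      ∃ φ : X →L[ℝ] ℝ, (supp x φ).Finite ∧ ‖φ‖ ≤ 1 ∧ t < |φ v|) :
    ∃ S : Set (X × (X →L[ℝ] ℝ)), Bi (ev X) S ∧
      Submodule.span ℝ (Prod.fst '' S) = Submodule.span ℝ (Set.range x) ∧
      Submodule.span ℝ (Prod.snd '' S) = finIn x Set.univ := by
  have h1 : ∀ C : Set Γ, ∃ S : Set (X × (X →L[ℝ] ℝ)), C ∈ Set.range (atom x) →
      (∀ p ∈ S, p.1 ∈ Submodule.span ℝ (x '' C) ∧ p.2 ∈ finIn x C) ∧
      Bi (ev X) S ∧ x '' C ⊆ Submodule.span ℝ (Prod.fst '' S) ∧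
      finIn x C ≤ Submodule.span ℝ (Prod.snd '' S) := by
    intro C
    by_cases hC : C ∈ Set.range (atom x)
    · obtain ⟨g, rfl⟩ := hC
      obtain ⟨S, hS⟩ := atom_system hd hc hn g
      exact ⟨S, fun _ => hS⟩
    · exact ⟨∅, fun h => absurd h hC⟩
  choose S hS using h1
  have hsub : ∀ g, S (atom x g) ⊆ ⋃ C ∈ Set.range (atom x), S C :=
    fun g => Set.subset_biUnion_of_mem (u := S) (show atom x g ∈ Set.range (atom x) from ⟨g, rfl⟩)
  refine ⟨⋃ C ∈ Set.range (atom x), S C, ?_, le_antisymm ?_ ?_, le_antisymm ?_ ?_⟩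
  · intro p hp q hq
    obtain ⟨C, hC, hpC⟩ := Set.mem_iUnion₂.1 hp
    obtain ⟨D, hD, hqD⟩ := Set.mem_iUnion₂.1 hq
    refine ⟨fun e => ?_, fun e => ?_⟩
    · rw [← e]
      exact ((hS C hC).2.1 p hpC p hpC).1 rfl
    · by_cases hCD : C = D
      · subst hCD
        exact ((hS C hC).2.1 p hpC q hqD).2 e
      · refine vanish_span q.2 (fun k hk => ?_) p.1 ((hS C hC).1 p hpC).1
        by_contra hcon
        have hkD : k ∈ D := ((hS D hD).1 q hqD).2.2 hcon
        obtain ⟨g, rfl⟩ := hC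
        obtain ⟨d, rfl⟩ := hD
        exact hCD ((atom_eq hk).symm.trans (atom_eq hkD))
  · refine Submodule.span_le.2 ?_
    rintro _ ⟨p, hp, rfl⟩
    obtain ⟨C, hC, hpC⟩ := Set.mem_iUnion₂.1 hp
    exact Submodule.span_mono (Set.image_subset_range x C) ((hS C hC).1 p hpC).1
  · refine Submodule.span_le.2 ?_
    rintro _ ⟨g, rfl⟩
    exact Submodule.span_mono (Set.image_mono (hsub g))
      ((hS _ ⟨g, rfl⟩).2.2.1 ⟨g, self_mem_atom x g, rfl⟩)
  · refine Submodule.span_le.2 ?_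
    rintro _ ⟨p, hp, rfl⟩
    obtain ⟨C, hC, hpC⟩ := Set.mem_iUnion₂.1 hp
    exact ⟨((hS C hC).1 p hpC).2.1, Set.subset_univ _⟩
  · have key : ∀ (n : ℕ) (φ : X →L[ℝ] ℝ), (supp x φ).Finite → (supp x φ).ncard = n →
        φ ∈ Submodule.span ℝ (Prod.snd '' ⋃ C ∈ Set.range (atom x), S C) := by
      intro n
      induction n using Nat.strong_induction_on with
      | _ n ih =>
        intro φ hφ hn2
        rcases (supp x φ).eq_empty_or_nonempty with h0 | ⟨g, hg⟩
        · have : φ = 0 := by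
            refine eq_zero_of_dense hd φ fun k => ?_
            by_contra hcon
            exact (Set.eq_empty_iff_forall_notMem.1 h0 k) hcon
          rw [this]
          exact Submodule.zero_mem _
        · obtain ⟨ψ, hψ⟩ := split_atom x g φ hφ
          have hψm : ψ ∈ finIn x (atom x g) :=
            ⟨hφ.subset (hψ.supp_subset.trans Set.inter_subset_left),
              hψ.supp_subset.trans Set.inter_subset_right⟩
          have hres : Res x (atom x g)ᶜ φ (φ - ψ) :=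
            ⟨fun k hk => by rw [sub_apply, hψ.2 k hk, sub_zero],
              fun k hk => by rw [sub_apply, hψ.1 k (not_not.1 hk), sub_self]⟩
          have hlt : (supp x (φ - ψ)).ncard < n := by
            rw [← hn2]
            refine Set.ncard_lt_ncard ⟨hres.supp_subset.trans Set.inter_subset_left, ?_⟩ hφ
            intro hsub2
            exact (hres.supp_subset (hsub2 hg)).2 (self_mem_atom x g)
          have h2 := ih _ hlt (φ - ψ)
            (hφ.subset (hres.supp_subset.trans Set.inter_subset_left)) rfl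
          have h3 := Submodule.span_mono (Set.image_mono (hsub g)) ((hS _ ⟨g, rfl⟩).2.2.2 hψm)
          have h4 := Submodule.add_mem _ h2 h3
          rwa [sub_add_cancel] at h4
    exact fun φ hφ => key _ φ hφ.1 rfl

end Pool.Agent.Lib.MP_d2b9e5_an.Fs
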